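import Pool.Agent.P.MP_ab3ecb_nt.Inv.W.Iface
import Pool.Agent.P.MP_ab3ecb_nt.Inv.J.Iface

/-! Step NORMP of the twist project. -/

namespace Pool.Agent.P.MP_ab3ecb_nt.Inv

open WithZero Polynomial Module TensorProduct
open Pool.Agent.P.MP_6f117a_ag (Place FF Model Reg)
open scoped IntermediateField Classical

section

variable {k A B : Type} [Field k] [Field A] [Field B] [Algebra k A] [Algebra k B]

theorem normp_equiv (ψ : A →ₐ[k] B) {P : Place k B} {Q : Place k A}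
    (h : ∀ u, P.v (ψ u) < 1 ↔ Q.v u < 1) : (P.v.comap (ψ : A →+* B)).IsEquiv Q.v :=
  Valuation.isEquiv_iff_val_lt_one.2 fun {x} => h x

theorem normp_ord (ψ : A →ₐ[k] B) {P : Place k B} {Q : Place k A}
    (h : ∀ u, P.v (ψ u) < 1 ↔ Q.v u < 1) (u : A) : ord P (ψ u) = ord P (ψ Q.π) * ord Q u := by
  rcases eq_or_ne u 0 with rfl | hu
  · simp
  have h1 : P.v (ψ _) = 1 := (normp_equiv ψ h).eq_one_iff_eq_one.2 (Q.v_unit hu)
  have h2 := (eq_one_iff (ne_zero_of_v_one h1)).1 h1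
  rw [map_mul, map_zpow₀, ord_mul P ((map_ne_zero ψ).2 hu)
    (zpow_ne_zero _ ((map_ne_zero ψ).2 Q.π_ne)), ord_zpow] at h2
  rw [ord, ord.eq_1 Q u, ← ord]
  linear_combination h2

theorem normp_ev [IsAlgClosed k] [FF k A] (ψ : A →ₐ[k] B) {P : Place k B} {Q : Place k A}
    (h : ∀ u, P.v (ψ u) < 1 ↔ Q.v u < 1) {u : A} (hu : Q.v u ≤ 1) : ev P (ψ u) = ev Q u :=
  ev_eq (by simpa using (h _).2 (ev_spec hu))

theorem normp_ev_prod [IsAlgClosed k] [FF k A] (P : Place k A) {ι : Type} (s : Finset ι)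
    {f : ι → A} (h : ∀ i, P.v (f i) = 1) : ev P (∏ i ∈ s, f i) = ∏ i ∈ s, ev P (f i) := by
  induction s using Finset.induction_on with
  | empty => simp
  | insert a s ha ih =>
    rw [Finset.prod_insert ha, Finset.prod_insert ha, ev_mul (h a).le (by simp [h]), ih]

/-- The place of the rational function field where the generator vanishes. -/
theorem normp_base [IsAlgClosed k] [FF k A] {τ : A} (ht : Transcendental k τ) (h : k⟮τ⟯ = ⊤) :
    ∃ Q : Place k A, ord Q τ = 1 ∧ ∀ Q' : Place k A, Q'.v τ < 1 → Q' = Q := by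
  obtain ⟨Z, hZ, -⟩ := (PL.model ht).fund
  have h1 : ∑ P ∈ Z, ord P τ = 1 := by
    have := PL.sum_zeros ht Z hZ
    rwa [h, IntermediateField.finrank_top, Nat.cast_one] at this
  have h2 : ∀ P ∈ Z, 0 < ord P τ := fun P hP =>
    (lt_one_iff (MP_6f117a_ag.trans_ne ht)).1 ((hZ P).1 hP)
  have h3 : (Z.card : ℤ) ≤ 1 := by
    rw [← h1, Finset.card_eq_sum_ones, Nat.cast_sum]
    exact Finset.sum_le_sum fun P hP => h2 P hP
  obtain ⟨Q, rfl⟩ : ∃ Q, Z = {Q} := Finset.card_eq_one.1 (by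
    have : Z.card ≠ 0 := fun e => by simp [Finset.card_eq_zero.1 e] at h1
    omega)
  exact ⟨Q, by simpa using h1, fun Q' hQ => Finset.mem_singleton.1 ((hZ Q').2 hQ)⟩

end

theorem normp_main (hWA : S_WA) (k L E M : Type) [Field k] [IsAlgClosed k] [Field L] [Field E]
    [Field M] [Algebra k L] [Algebra k E] [Algebra k M] [Algebra L E] [Algebra L M]
    [IsScalarTower k L E] [IsScalarTower k L M] [FF k L] [FF k E] [FF k M] [FiniteDimensional L M]
    [IsGalois L M] [Fintype (E →ₐ[L] M)] (ψ : E →ₐ[L] M) {τ : L} (ht : Transcendental k τ)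
    (h : k⟮τ⟯ = ⊤) (Z : Finset (Place k E)) (hZ : ∀ P, P ∈ Z ↔ P.v (algebraMap L E τ) < 1)
    (hc : (Fintype.card (E →ₐ[L] M) : ℤ) = ∑ P ∈ Z, ord P (algebraMap L E τ)) (N : E → L)
    (hN : ∀ z, algebraMap L M (N z) = ∏ σ : E →ₐ[L] M, σ z) (z : E) (hz : z ≠ 0)
    (P0 : Place k E) (h0 : P0 ∈ Z) :
    ord P0 (algebraMap L E (N z)) = ord P0 (algebraMap L E τ) * ∑ P ∈ Z, ord P z ∧
    ((∀ P ∈ Z, P.v z = 1) →
      ev P0 (algebraMap L E (N z)) = ∏ P ∈ Z, ev P z ^ ord P (algebraMap L E τ)) := by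
  obtain ⟨Q, q1, q2⟩ := normp_base ht h
  have qv : Q.v τ < 1 := (lt_one_iff (MP_6f117a_ag.trans_ne ht)).2 (by omega)
  have ht' : Transcendental k (algebraMap L E τ) :=
    (transcendental_algebraMap_iff (algebraMap L E).injective).2 ht
  have t0 := MP_6f117a_ag.trans_ne ht'
  have r1 : ∀ P ∈ Z, ∀ u, P.v (IsScalarTower.toAlgHom k L E u) < 1 ↔ Q.v u < 1 := fun P hP => by
    obtain ⟨Q', e⟩ := PL.exists_restrict (IsScalarTower.toAlgHom k L E) ht P
    rwa [q2 Q' ((e τ).1 ((hZ P).1 hP))] at e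
  obtain ⟨R, hR⟩ := PL.exists_extend (IsScalarTower.toAlgHom k L M) ht Q
  choose p hp using fun σ : E →ₐ[L] M => PL.exists_restrict (σ.restrictScalars k) ht' R
  have pZ : ∀ σ, p σ ∈ Z := fun σ => (hZ _).2 ((hp σ _).1 (by simpa using (hR τ).2 qv))
  have ps : ∀ P ∈ Z, ∃ σ, p σ = P := fun P hP => by
    obtain ⟨R', e⟩ := PL.exists_extend (ψ.restrictScalars k) ht' P
    obtain ⟨g, hg⟩ := PL.exists_conj ht R R' fun u =>
      (hR u).trans ((r1 P hP u).symm.trans (by simpa using (e (algebraMap L E u)).symm))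
    refine ⟨(g : M →ₐ[L] M).comp ψ, PL.uniq _ _ fun u => (hp _ u).symm.trans ?_⟩
    rw [← e u, hg]
    rfl
  set e := ord R (algebraMap L M τ) with he
  have e0 : 0 < e := (lt_one_iff ((_root_.map_ne_zero _).2 (MP_6f117a_ag.trans_ne ht))).1
    ((hR τ).2 qv)
  have o1 : ∀ u, ord R (algebraMap L M u) = e * ord Q u := fun u => by
    have a := normp_ord _ hR τ
    rw [q1, mul_one] at a
    exact (normp_ord _ hR u).trans (congrArg (· * _) a.symm)
  have o2 : ∀ P ∈ Z, ∀ u, ord P (algebraMap L E u) = ord P (algebraMap L E τ) * ord Q u :=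
    fun P hP u => by
      have a := normp_ord _ (r1 P hP) τ
      rw [q1, mul_one] at a
      exact (normp_ord _ (r1 P hP) u).trans (congrArg (· * _) a.symm)
  have tp : ∀ P ∈ Z, 0 < ord P (algebraMap L E τ) := fun P hP => (lt_one_iff t0).1 ((hZ P).1 hP)
  have o3 : ∀ σ u, ord R (σ u) = e / ord (p σ) (algebraMap L E τ) * ord (p σ) u := fun σ u => by
    have a : ord R (σ _) = _ := normp_ord _ (hp σ) (algebraMap L E τ)
    rw [σ.commutes, ← he] at a
    rw [a, Int.mul_ediv_cancel _ (tp _ (pZ σ)).ne']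
    exact normp_ord _ (hp σ) u
  have o4 : ∀ P ∈ Z, e / ord P (algebraMap L E τ) * ord P (algebraMap L E τ) = e := fun P hP => by
    obtain ⟨σ, rfl⟩ := ps P hP
    rw [← o3, σ.commutes]
  let n : Place k E → ℕ := fun P => (Finset.univ.filter fun σ => p σ = P).card
  have s1 : ∀ u, u ≠ 0 → e * ord Q (N u) =
      ∑ P ∈ Z, n P * (e / ord P (algebraMap L E τ) * ord P u) := fun u hu => by
    rw [← o1, hN, ord_prod _ _ fun σ _ => (map_ne_zero σ).2 hu,
      ← Finset.sum_fiberwise_of_maps_to fun σ _ => pZ σ]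
    refine Finset.sum_congr rfl fun P _ => ?_
    rw [Finset.sum_congr rfl fun σ hσ => (o3 σ u).trans (by rw [(Finset.mem_filter.1 hσ).2]),
      Finset.sum_const, nsmul_eq_mul]
  have n1 : ∀ P ∈ Z, ord P (algebraMap L E τ) ≤ n P := fun P hP => by
    obtain ⟨u, hu, a⟩ := (hWA k E ⟨_, ht'⟩).2 Z (Pi.single P 1)
    have b := s1 u hu
    rw [Finset.sum_eq_single_of_mem P hP (fun P' h1 h2 => by simp [a P' h1, h2]), a P hP,
      Pi.single_eq_same, mul_one] at b
    obtain ⟨σ, hσ⟩ := ps P hP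
    refine Int.le_of_dvd (Int.natCast_pos.2 (Finset.card_pos.2 ⟨σ, by simp [hσ]⟩))
      ⟨ord Q (N u), mul_left_cancel₀ e0.ne' ?_⟩
    linear_combination (-n P : ℤ) * o4 P hP - ord P (algebraMap L E τ) * b
  have n2 : ∀ P ∈ Z, ord P (algebraMap L E τ) = n P := (Finset.sum_eq_sum_iff_of_le n1).1 (by
    rw [← hc, ← Finset.card_univ, Finset.card_eq_sum_card_fiberwise fun σ _ => pZ σ, Nat.cast_sum])
  have s2 : ord Q (N z) = ∑ P ∈ Z, ord P z := mul_left_cancel₀ e0.ne' (by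
    rw [s1 z hz, Finset.mul_sum]
    refine Finset.sum_congr rfl fun P hP => ?_
    rw [← n2 P hP]
    linear_combination ord P z * o4 P hP)
  refine ⟨by rw [o2 P0 h0, s2], fun h1 => ?_⟩
  have v1 : ∀ σ : E →ₐ[L] M, R.v (σ z) = 1 := fun σ =>
    (normp_equiv _ (hp σ)).eq_one_iff_eq_one.2 (h1 _ (pZ σ))
  have v2 : Q.v (N z) = 1 := (normp_equiv _ hR).eq_one_iff_eq_one.1 (by
    change R.v (algebraMap L M (N z)) = 1
    simp [hN, v1])
  refine (normp_ev _ (r1 P0 h0) v2.le).trans ((normp_ev _ hR v2.le).symm.trans ?_)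
  rw [IsScalarTower.coe_toAlgHom', hN, normp_ev_prod _ _ v1,
    ← Finset.prod_fiberwise_of_maps_to fun σ _ => pZ σ]
  refine Finset.prod_congr rfl fun P hP => ?_
  rw [n2 P hP, zpow_natCast, ← Finset.prod_const]
  exact Finset.prod_congr rfl fun σ hσ => (normp_ev _ (hp σ) (h1 _ (pZ σ)).le).trans
    (by rw [(Finset.mem_filter.1 hσ).2])

theorem p_NORMP (hWA : S_WA) :
    S_NORMP := by
  intro k E _ _ _ _ _ _ t L ht hL Z hZ z hz P0 h0
  subst hL
  have := FF.fin t ht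
  have h : k⟮IntermediateField.AdjoinSimple.gen k t⟯ = ⊤ :=
    IntermediateField.lift_injective _ (by simp)
  have ht' : Transcendental k (IntermediateField.AdjoinSimple.gen k t) :=
    (transcendental_algebraMap_iff (algebraMap k⟮t⟯ E).injective).1 ht
  have : FiniteDimensional k⟮IntermediateField.AdjoinSimple.gen k t⟯ k⟮t⟯ := by
    rw [h]; exact Module.finite_of_finrank_eq_succ IntermediateField.finrank_top
  let M := IntermediateField.normalClosure k⟮t⟯ E (AlgebraicClosure E)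
  obtain ⟨f1, f2⟩ := PL.ff_of_finite k k⟮t⟯ M (IntermediateField.AdjoinSimple.gen k t)
  have : CharZero k⟮t⟯ := charZero_of_injective_algebraMap (algebraMap k _).injective
  have : IsAlgClosure k⟮t⟯ (AlgebraicClosure E) := IsAlgClosure.ofAlgebraic _ E _
  have : IsGalois k⟮t⟯ M := inferInstance
  let ε := normalClosure.algHomEquiv k⟮t⟯ E (AlgebraicClosure E)
  refine normp_main hWA k k⟮t⟯ E M (IsScalarTower.toAlgHom _ _ _) ht' h Z hZ ?_ _
    (fun u => Subtype.ext ?_) z hz P0 h0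
  · rw [Fintype.card_congr ε, AlgHom.card]
    exact (PL.sum_zeros ht Z hZ).symm
  · refine (Algebra.norm_eq_prod_embeddings k⟮t⟯ (AlgebraicClosure E) u).trans ?_
    rw [IntermediateField.coe_prod]
    exact (Fintype.prod_equiv ε _ _ fun σ => rfl).symm

end Pool.Agent.P.MP_ab3ecb_nt.Inv
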