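import Pool.Agent.P.MP_ab3ecb_nt.Inv.W.Iface

/-! Step WEIL of the twist project. -/

namespace Pool.Agent.P.MP_ab3ecb_nt.Inv

open WithZero Polynomial Module TensorProduct
open Pool.Agent.P.MP_6f117a_ag (Place FF Model Reg)
open scoped IntermediateField Classical

lemma weil_zs {F ι : Type} [Field F] {x : F} (hx : x ≠ 0) (s : Finset ι) (n : ι → ℤ) :
    ∏ i ∈ s, x ^ n i = x ^ ∑ i ∈ s, n i := by
  induction s using Finset.induction_on with
  | empty => simp
  | insert a s ha ih => rw [Finset.prod_insert ha, Finset.sum_insert ha, ih, zpow_add₀ hx]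

section

variable {k E : Type} [Field k] [IsAlgClosed k] [Field E] [Algebra k E] [FF k E]

/-- The zeros of a function. -/
noncomputable def weil_Z (k : Type) [Field k] [Algebra k E] (t : E) : Finset (Place k E) :=
  (dv k t).support.filter fun P => 0 < ord P t

lemma weil_mem {t : E} {P : Place k E} : P ∈ weil_Z k t ↔ 0 < ord P t := by
  simp only [weil_Z, Finset.mem_filter, Finsupp.mem_support_iff, dv_apply]
  omega

lemma weil_mem' {t : E} (ht : t ≠ 0) (P : Place k E) : P ∈ weil_Z k t ↔ P.v t < 1 :=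
  weil_mem.trans (lt_one_iff ht).symm

lemma weil_prod (P : Place k E) {ι : Type} (s : Finset ι) (x : ι → E) (n : ι → ℤ)
    (h : ∀ i ∈ s, P.v (x i) = 1) :
    P.v (∏ i ∈ s, x i ^ n i) = 1 ∧ ev P (∏ i ∈ s, x i ^ n i) = ∏ i ∈ s, ev P (x i) ^ n i := by
  induction s using Finset.induction_on with
  | empty => simp
  | insert a s ha ih =>
    obtain ⟨h1, h2⟩ := ih fun i hi => h i (by simp [hi])
    have h3 := h a (by simp)
    have h4 : P.v (x a ^ n a) = 1 := by simp [h3]
    rw [Finset.prod_insert ha, Finset.prod_insert ha, map_mul, ev_mul h4.le h1.le, h1, h2, h4,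
      ev_zpow h3]
    simp

lemma weil_unit {P : Place k E} {x : E} (h : P.v x ≤ 1) {b : k} (hb : ev P x ≠ b) :
    P.v (x - algebraMap k E b) = 1 ∧ ev P (x - algebraMap k E b) = ev P x - b :=
  ⟨(P.v.map_sub_le h (P.triv b)).antisymm (not_lt.1 fun e => hb (ev_eq e)),
    by rw [ev_sub h (P.triv b), ev_const]⟩

omit [IsAlgClosed k] [FF k E] in
lemma weil_pole {P : Place k E} {x : E} (h : P.v x < 1) (b : k) :
    P.v (1 - algebraMap k E b * x) = 1 ∧ ev P (1 - algebraMap k E b * x) = 1 := by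
  have h1 : P.v (algebraMap k E b * x) < 1 := by
    rw [map_mul]
    exact mul_lt_one_of_nonneg_of_lt_one_right (P.triv b) zero_le h
  exact ⟨P.v.map_one_sub_of_lt h1, ev_eq (by simpa using h1)⟩

end

theorem p_WEIL (hNORMP : S_NORMP) :
    S_WEIL := by
  intro k E _ _ _ _ _ _ f g hf hg hD
  have hdeg : ∑ P ∈ (dv k f).support, ord P f = 0 := by simpa [deg_eq] using deg_dv (k := k) f
  rcases MP_6f117a_ag.const_or_trans (L := k) g with ⟨c, rfl⟩ | ht
  · rw [dv_const, evD_zero, evD_const fun e => hg (by rw [e, map_zero]), deg_dv, zpow_zero]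
  have hN := fun t h1 h2 => hNORMP k E t k⟮g⟯ h1 h2 _ (weil_mem' (MP_6f117a_ag.trans_ne h1)) f hf
  have hN0 : algebraMap k⟮g⟯ E (Algebra.norm k⟮g⟯ f) ≠ 0 := by
    have := FF.fin g ht
    simpa using hf
  generalize algebraMap k⟮g⟯ E (Algebra.norm k⟮g⟯ f) = N at hN hN0
  have hS : ∀ P ∈ (dv k f).support, P.v g = 1 := fun P hP =>
    (eq_one_iff hg).2 ((hD P).resolve_left (by simpa using hP))
  have hF : ∀ P : Place k E, ord P g ≠ 0 → P.v f = 1 := fun P hP =>
    (eq_one_iff hf).2 ((hD P).resolve_right hP)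
  have hsub := fun b => MP_6f117a_ag.trans_ne (MP_6f117a_ag.trans_sub ht b)
  have hinf := hN g⁻¹ (MP_6f117a_ag.trans_inv ht) (MP_6f117a_ag.adjoin_inv g)
  obtain ⟨R, hR⟩ : ∃ R, R = ∏ P ∈ (dv k f).support, (g - algebraMap k E (ev P g)) ^ ord P f :=
    ⟨_, rfl⟩
  have hR0 : R ≠ 0 := hR ▸ Finset.prod_ne_zero_iff.2 fun P _ => zpow_ne_zero _ (hsub _)
  have hR1 : ∀ Q : Place k E, Q.v g⁻¹ < 1 → Q.v R = 1 ∧ ev Q R = 1 := fun Q hQ => by
    have e : R = ∏ P ∈ (dv k f).support, (1 - algebraMap k E (ev P g) * g⁻¹) ^ ord P f := by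
      have e1 := weil_zs hg (dv k f).support fun P => ord P f
      rw [hdeg, zpow_zero] at e1
      refine .trans ?_ ((congrArg (· * _) e1).trans (one_mul _))
      rw [hR, ← Finset.prod_mul_distrib]
      exact Finset.prod_congr rfl fun P _ => by
        rw [← mul_zpow]
        congr 1
        field_simp
    have := weil_prod Q (dv k f).support _ (fun P => ord P f) fun P _ => (weil_pole hQ (ev P g)).1
    simpa only [← e, (weil_pole hQ _).2, one_zpow, Finset.prod_const_one] using this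
  have hord : ∀ Q : Place k E, ord Q N = ord Q R := fun Q => by
    rcases le_or_gt (Q.v g) 1 with hQ | hQ
    · rw [(hN _ (MP_6f117a_ag.trans_sub ht (ev Q g)) (MP_6f117a_ag.adjoin_sub g _) Q
        ((weil_mem' (hsub _) Q).2 (ev_spec hQ))).1, hR,
        ord_prod Q _ fun P _ => zpow_ne_zero _ (hsub _),
        ← Finset.sum_filter_of_ne (p := fun P => ev P g = ev Q g) (s := (dv k f).support) ?_,
        Finset.mul_sum]
      · refine (Finset.sum_subset (fun P hP => ?_) fun P h1 h2 => ?_).symm.trans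
          (Finset.sum_congr rfl fun P hP => ?_)
        · obtain ⟨h1, h2⟩ := Finset.mem_filter.1 hP
          exact (weil_mem' (hsub _) P).2 (h2 ▸ ev_spec (hS P h1).le)
        · have h3 := ev_eq ((weil_mem' (hsub _) P).1 h1)
          have h4 : ord P f = 0 := by simpa [h3] using h2
          rw [h4, mul_zero]
        · rw [ord_zpow, (Finset.mem_filter.1 hP).2, mul_comm]
      · intro P _ h1
        by_contra h2
        rw [ord_zpow, (eq_one_iff (hsub _)).1 (weil_unit hQ (Ne.symm h2)).1, mul_zero] at h1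
        exact h1 rfl
    · have h1 : Q.v g⁻¹ < 1 := by rw [map_inv₀]; exact inv_lt_one_of_one_lt₀ hQ
      rw [(hinf Q ((weil_mem' (inv_ne_zero hg) Q).2 h1)).1, (eq_one_iff hR0).1 (hR1 Q h1).1,
        Finset.sum_eq_zero, mul_zero]
      intro P hP
      have := weil_mem.1 hP
      exact (hD P).resolve_right (by rw [ord_inv] at this; omega)
  obtain ⟨c, hc⟩ := const_of_dv (k := k) (z := N / R) (by
    ext Q
    simp [ord_div Q hN0 hR0, hord Q])
  have hc' : N = algebraMap k E c * R := by rw [hc, div_mul_cancel₀ _ hR0]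
  have hc0 : c ≠ 0 := fun e => hN0 (by rw [hc', e, map_zero, zero_mul])
  obtain ⟨Q0, h0⟩ := PL.exists_pole (MP_6f117a_ag.trans_inv ht)
  obtain ⟨Q1, h1⟩ := PL.exists_pole ht
  have h0' : Q0.v g < 1 := by
    rwa [map_inv₀, one_lt_inv₀ (zero_lt_iff.2 (v_ne Q0 hg))] at h0
  have h1' : Q1.v g⁻¹ < 1 := by rw [map_inv₀]; exact inv_lt_one_of_one_lt₀ h1
  have e0 := (hN g ht rfl Q0 ((weil_mem' hg Q0).2 h0')).2 fun P hP => hF P (weil_mem.1 hP).ne'
  have e1 := (hinf Q1 ((weil_mem' (inv_ne_zero hg) Q1).2 h1')).2 fun P hP =>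
    hF P (by have := weil_mem.1 hP; rw [ord_inv] at this; omega)
  have hu := fun P hP => weil_unit h0'.le (b := ev P g)
    (by rw [ev_of_lt h0']; exact (ev_ne_zero (hS P hP)).symm)
  have e2 := weil_prod Q0 (dv k f).support _ (fun P => ord P f) fun P hP => (hu P hP).1
  rw [← hR, Finset.prod_congr rfl fun P hP => by
    rw [(hu P hP).2, ev_of_lt h0', zero_sub, neg_eq_neg_one_mul, mul_zpow],
    Finset.prod_mul_distrib, weil_zs (by simp), hdeg, zpow_zero, one_mul] at e2
  rw [hc', ev_mul (Q0.triv c) e2.1.le, ev_const, e2.2] at e0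
  rw [hc', ev_mul (Q1.triv c) (hR1 Q1 h1').1.le, ev_const, (hR1 Q1 h1').2, mul_one] at e1
  have e3 : (dv k g).support = weil_Z k g ∪ weil_Z k g⁻¹ := by
    ext P
    simp only [Finsupp.mem_support_iff, dv_apply, Finset.mem_union, weil_mem, ord_inv]
    omega
  rw [evD, evD, Finsupp.prod, Finsupp.prod, e3, Finset.prod_union (Finset.disjoint_left.2
    fun P a b => by
      have := weil_mem.1 a
      have := weil_mem.1 b
      rw [ord_inv] at this
      omega)]
  simp only [dv_apply, ord_inv, zpow_neg, Finset.prod_inv_distrib] at e1 ⊢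
  rw [← e0, ← inv_inv (∏ P ∈ weil_Z k g⁻¹, _), ← e1]
  field_simp

end Pool.Agent.P.MP_ab3ecb_nt.Inv
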