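import Pool.Agent.P.MP_ab3ecb_nt.Inv.BaseJ

/-!
Statements: Weil reciprocity and the Weil pairing.
-/

namespace Pool.Agent.P.MP_ab3ecb_nt.Inv

open WithZero Polynomial Module TensorProduct
open Pool.Agent.P.MP_6f117a_ag (Place FF Model Reg)
open scoped IntermediateField Classical

-- deps: WA
def S_NORMP : Prop := ∀ (k E : Type) [Field k] [IsAlgClosed k] [CharZero k] [Field E]
  [Algebra k E] [FF k E] (t : E) (L : IntermediateField k E), Transcendental k t → k⟮t⟯ = L →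
  ∀ Z : Finset (Place k E), (∀ P, P ∈ Z ↔ P.v t < 1) → ∀ z : E, z ≠ 0 → ∀ P0 ∈ Z,
    ord P0 (algebraMap L E (Algebra.norm L z)) = ord P0 t * ∑ P ∈ Z, ord P z ∧
    ((∀ P ∈ Z, P.v z = 1) →
      ev P0 (algebraMap L E (Algebra.norm L z)) = ∏ P ∈ Z, ev P z ^ ord P t)

-- deps: NORMP
def S_WEIL : Prop := ∀ (k E : Type) [Field k] [IsAlgClosed k] [CharZero k] [Field E]
  [Algebra k E] [FF k E] (f g : E), f ≠ 0 → g ≠ 0 → Dj k f g → evD f (dv k g) = evD g (dv k f)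

-- deps:
def S_QUAD : Prop := ∀ (k E : Type) [Field k] [IsAlgClosed k] [CharZero k] [Field E]
  [Algebra k E] [FF k E] (f : E), Ev2 k f → ¬ IsSquare f →
  ∃ (E' : Type) (_ : Field E') (_ : Algebra k E') (_ : FF k E') (ψ : E →ₐ[k] E') (y : E')
    (σ : SA k E') (r : Place k E' → Place k E), y * y = ψ f ∧ σ.s0 = RingEquiv.refl k ∧
    σ.s y = -y ∧ (∀ z, σ.s (σ.s z) = z) ∧ (∀ z, σ.s z = z ↔ ∃ w, ψ w = z) ∧
    (∀ Q w, Q.v (ψ w) = (r Q).v w) ∧ Function.Surjective r ∧ (∀ Q, σ.pl Q ≠ Q) ∧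
    ∀ Q Q', r Q = r Q' ↔ Q' = Q ∨ Q' = σ.pl Q

-- deps: QUAD JDIV WEIL WA
def S_NDG : Prop := ∀ (k E : Type) [Field k] [IsAlgClosed k] [CharZero k] [Field E]
  [Algebra k E] [FF k E] (f : E), Ev2 k f → ¬ IsSquare f →
  ∃ g, Ev2 k g ∧ Dj k f g ∧ evD f (hd k g) = -evD g (hd k f)

-- deps: WEIL WA NDG
def S_PAIR : Prop := ∀ (k E : Type) [Field k] [IsAlgClosed k] [CharZero k] [Field E]
  [Algebra k E] [FF k E], (∃ t : E, Transcendental k t) → ∃ e : E → E → ℤˣ, IsPair k e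

-- deps:
def S_LA : Prop := ∀ (G : Type) [CommGroup G] (N : Subgroup G) (R : Finset G) (e : G → G → ℤˣ)
  (σ : G ≃* G), (∀ x : G, x * x ∈ N) → (∀ r ∈ R, r ∈ N) → (∀ x ∈ N, ∃ r ∈ R, IsSquare (x * r)) →
  (∀ x ∈ N, ∀ x' ∈ N, ∀ y ∈ N, e (x * x') y = e x y * e x' y) →
  (∀ x ∈ N, ∀ y ∈ N, e x y = e y x) → (∀ x : G, ∀ y ∈ N, e (x * x) y = 1) →
  (∀ x ∈ N, (∀ y ∈ N, e x y = 1) → IsSquare x) → (∀ x, σ x ∈ N ↔ x ∈ N) →
  (∀ x ∈ N, ∀ y ∈ N, e (σ x) (σ y) = e x y) → ∀ d ∈ N,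
    (∃ h ∈ N, IsSquare (d * (σ h * h))) ∨ ∃ g ∈ N, IsSquare (σ g * g) ∧ e d g = -1

-- deps: WEIL WA
def S_KEY : Prop := ∀ (k E : Type) [Field k] [IsAlgClosed k] [CharZero k] [Field E]
  [Algebra k E] [FF k E] (e : E → E → ℤˣ), IsPair k e → ∀ (σ : SA k E) (a b : Place k E)
  (γ g : E) (r : k), a ≠ b → σ.pl a = a → σ.pl b = b → OddAt k γ {a, b} → Ev2 k g → σ.s g = g →
    a.v g = 1 → b.v g = 1 → r * r = ev a g * ev b g → σ.s0 r = ((e (σ.s γ * γ) g : ℤ) : k) * r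

-- deps: RR
def S_HN : Prop := ∀ (k E : Type) [Field k] [IsAlgClosed k] [Field E] [Algebra k E] [FF k E]
  (H : Set (SA k E)) (a : Place k E) (π z : E), (∀ σ ∈ H, σ.pl a = a) → ord a π = 1 →
  (∀ σ ∈ H, σ.s π = π) → z ≠ 0 → (∀ σ ∈ H, IsSquare (σ.s z * z)) →
    ∃ s : E, s ≠ 0 ∧ ∀ σ ∈ H, σ.s (z * (s * s)) = z * (s * s)

end Pool.Agent.P.MP_ab3ecb_nt.Inv
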