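import Pool.Agent.P.MP_ab3ecb_nt.Inv.W.Iface
import Pool.Agent.P.MP_ab3ecb_nt.Inv.J.Iface

/-! Step HN of the twist project. -/

namespace Pool.Agent.P.MP_ab3ecb_nt.Inv

open WithZero Polynomial Module TensorProduct
open Pool.Agent.P.MP_6f117a_ag (Place FF Model Reg)
open scoped IntermediateField Classical

theorem p_HN (hRR : S_RR) :
    S_HN := by
  intro k E _ _ _ _ _ H a π z ha hπ hH z0 hz
  obtain ⟨g, R⟩ := hRR k E ⟨_, a.π_trans⟩
  have π0 : π ≠ 0 := ne_zero_of_ord (by rw [hπ]; exact one_ne_zero)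
  obtain ⟨r, hr⟩ := R.minl (hd k z) a
  obtain ⟨A, A0, hA⟩ := exists_eff (D := hd k z + Finsupp.single a r) (by omega)
  have A1 : finrank k (LS A) = 1 := hA.finrank_eq.trans hr
  obtain ⟨s, s0, hs⟩ := id hA
  have w0 : z * (s * s) ≠ 0 := mul_ne_zero z0 (mul_ne_zero s0 s0)
  have h1 : ∀ σ ∈ H, dv k (σ.s (z * (s * s))) = dv k (z * (s * s)) := fun σ hσ => by
    obtain ⟨u, hu⟩ := hz σ hσ
    have z1 : σ.s z ≠ 0 := (map_ne_zero σ.s).2 z0
    have u0 : u ≠ 0 := by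
      rintro rfl
      exact mul_ne_zero z1 z0 (hu.trans (mul_zero 0))
    have e1 : ∀ P : Place k E, ord P (σ.s z) + ord P z = 2 * ord P u := fun P => by
      rw [← ord_mul P z1 z0, hu, ord_mul P u0 u0, two_mul]
    have e2 : Prin (σ.dm (hd k z) - hd k z) := ⟨u / z, div_ne_zero u0 z0, by
      ext P
      have := e1 P
      rw [← σ.hd_s, dv_apply, ord_div P u0 z0, Finsupp.sub_apply, hd_apply, hd_apply]
      omega⟩
    have e3 := hA.dm σ
    rw [map_sub, map_add, σ.dm_single, ha σ hσ] at e3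
    have e4 : σ.dm A = A := eff_unique A1 A0 (fun P => A0 _)
      (by convert (e3.add e2).sub hA using 1; abel)
    have e5 : dv k (σ.s s) = A - (hd k (σ.s z) + Finsupp.single a r) := by
      rw [σ.dv_s, hs, map_sub, map_add, e4, σ.dm_single, ha σ hσ, σ.hd_s]
    have s1 : σ.s s ≠ 0 := (map_ne_zero σ.s).2 s0
    ext P
    have e6 := e1 P
    have e7 := DFunLike.congr_fun e5 P
    have e8 := DFunLike.congr_fun hs P
    simp only [dv_apply, Finsupp.sub_apply, Finsupp.add_apply, hd_apply] at e7 e8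
    rw [dv_apply, dv_apply, map_mul, map_mul, ord_mul P z1 (mul_ne_zero s1 s1), ord_mul P s1 s1,
      ord_mul P z0 (mul_ne_zero s0 s0), ord_mul P s0 s0]
    omega
  generalize hw : z * (s * s) = w at w0 h1
  have p0 : π ^ ord a w ≠ 0 := zpow_ne_zero _ π0
  have h2 : a.v (w / π ^ ord a w) = 1 := (eq_one_iff (div_ne_zero w0 p0)).2 (by
    rw [ord_div a w0 p0, ord_zpow, hπ, mul_one, sub_self])
  obtain ⟨ρ, hρ⟩ := IsAlgClosed.exists_eq_mul_self (ev a (w / π ^ ord a w))⁻¹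
  have b0 := ev_ne_zero h2
  have ρ0 : ρ ≠ 0 := by
    rintro rfl
    exact inv_ne_zero b0 (hρ.trans (mul_zero 0))
  refine ⟨s * algebraMap k E ρ, mul_ne_zero s0 ((_root_.map_ne_zero _).2 ρ0), fun σ hσ => ?_⟩
  have w1 : σ.s w ≠ 0 := (map_ne_zero σ.s).2 w0
  obtain ⟨c, hc⟩ := const_of_dv (k := k) (z := σ.s w / w) (by rw [dv_div w1 w0, h1 σ hσ, sub_self])
  rw [eq_div_iff w0] at hc
  have h3 := σ.ev_pl a (w / π ^ ord a w)
  rw [ha σ hσ, map_div₀, map_zpow₀, hH σ hσ, ← hc, mul_div_assoc, ev_mul (a.triv c) h2.le,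
    ev_const] at h3
  rw [show z * (s * algebraMap k E ρ * (s * algebraMap k E ρ)) =
    z * (s * s) * algebraMap k E (ρ * ρ) by rw [map_mul]; ring, hw, ← hρ, map_mul, σ.h, map_inv₀,
    ← h3, ← hc, mul_comm _ w, mul_assoc, ← map_mul, mul_inv, mul_inv_cancel_left₀]
  rintro rfl
  exact w1 (by rw [← hc, map_zero, zero_mul])

end Pool.Agent.P.MP_ab3ecb_nt.Inv
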