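import Pool.Agent.P.MP_ab3ecb_nt.Inv.W.Iface

/-! Step LA of the twist project. -/

namespace Pool.Agent.P.MP_ab3ecb_nt.Inv

open WithZero Polynomial Module TensorProduct
open Pool.Agent.P.MP_6f117a_ag (Place FF Model Reg)
open scoped IntermediateField Classical

theorem la_roots (V : Type) [CommGroup V] (h : ∀ x : V, x ^ 2 = 1) :
    HasEnoughRootsOfUnity ℤ (Monoid.exponent V) := by
  have : HasEnoughRootsOfUnity ℤ 2 := ⟨⟨-1, IsPrimitiveRoot.neg_one 0 (by norm_num)⟩, inferInstance⟩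
  exact HasEnoughRootsOfUnity.of_dvd ℤ (Monoid.exponent_dvd_of_forall_pow_eq_one h)

theorem la_quot {G : Type} [CommGroup G] {N : Subgroup G} {R : Finset G} (hR : ∀ r ∈ R, r ∈ N)
    (h : ∀ x ∈ N, ∃ r ∈ R, IsSquare (x * r)) (U : Subgroup N)
    (hU : ∀ x : N, IsSquare (x : G) → x ∈ U) :
    Finite (N ⧸ U) ∧ HasEnoughRootsOfUnity ℤ (Monoid.exponent (N ⧸ U)) := by
  refine ⟨Finite.of_surjective (fun r : R => ((⟨r, hR r r.2⟩⁻¹ : N) : N ⧸ U)) fun y => ?_,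
    la_roots _ fun y => ?_⟩
  · obtain ⟨x, rfl⟩ := QuotientGroup.mk_surjective y
    obtain ⟨r, hr, e⟩ := h x x.2
    exact ⟨⟨r, hr⟩, QuotientGroup.eq.2 (hU _ (by simpa [mul_comm] using e))⟩
  · obtain ⟨x, rfl⟩ := QuotientGroup.mk_surjective y
    rw [← QuotientGroup.mk_pow, QuotientGroup.eq_one_iff]
    exact hU _ ⟨x, by simp [sq]⟩

theorem p_LA :
    S_LA := by
  intro G _ N R e σ _ hR hfin hmul hsym hsq hnd hσ hinv d hd
  let S : Subgroup N := (Subgroup.square G).subgroupOf N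
  have hS : ∀ x : N, x ∈ S ↔ IsSquare (x : G) := fun x => Subgroup.mem_square
  let T : N →* N := MonoidHom.mk' (fun h => ⟨σ h * h, mul_mem ((hσ h).2 h.2) h.2⟩) fun a b =>
    Subtype.ext (by simp [mul_mul_mul_comm])
  have hT : ∀ h : N, (T h : G) = σ h * h := fun _ => rfl
  by_cases h0 : (⟨d, hd⟩ : N) ∈ S ⊔ T.range
  · obtain ⟨s, hs, _, ⟨h, rfl⟩, e⟩ := Subgroup.mem_sup.1 h0
    refine .inl ⟨h, h.2, ?_⟩
    obtain rfl : (s : G) * (σ h * h) = d := congrArg Subtype.val e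
    rw [mul_assoc]
    exact ((hS s).1 hs).mul ⟨_, rfl⟩
  obtain ⟨f1, r1⟩ := la_quot hR hfin S fun x => (hS x).2
  obtain ⟨f2, r2⟩ := la_quot hR hfin (S ⊔ T.range) fun x hx => Subgroup.mem_sup_left ((hS x).2 hx)
  obtain ⟨χ, hχ⟩ := CommGroup.exists_apply_ne_one_of_hasEnoughRootsOfUnity (N ⧸ (S ⊔ T.range)) ℤ
    (mt (QuotientGroup.eq_one_iff _).1 h0)
  have k : ∀ x y : N, x ∈ S → e x y = 1 := fun x y hx => by
    obtain ⟨z, hz⟩ := (hS x).1 hx
    rw [hz, hsq z y y.2]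
  let b : N →* (N ⧸ S →* ℤˣ) := MonoidHom.mk' (fun g => QuotientGroup.lift S
    (MonoidHom.mk' (fun x : N => e x g) fun x y => hmul x x.2 y y.2 g g.2) fun x hx => k x g hx)
    fun g g' => QuotientGroup.monoidHom_ext _ (MonoidHom.ext fun x => by
      change e x (g * g') = e x g * e x g'
      rw [hsym _ x.2 _ (mul_mem g.2 g'.2), hmul _ g.2 _ g'.2 _ x.2, hsym _ x.2 _ g.2,
        hsym _ x.2 _ g'.2])
  let φ : N ⧸ S →* (N ⧸ S →* ℤˣ) := QuotientGroup.lift S b fun g hg =>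
    QuotientGroup.monoidHom_ext _ (MonoidHom.ext fun x => (hsym _ x.2 _ g.2).trans (k g x hg))
  have inj : Function.Injective φ := (injective_iff_map_eq_one φ).2 fun y hy => by
    obtain ⟨g, rfl⟩ := QuotientGroup.mk_surjective y
    refine (QuotientGroup.eq_one_iff _).2 ((hS g).2 (hnd g g.2 fun x hx => ?_))
    rw [hsym _ g.2 _ hx]
    exact DFunLike.congr_fun hy ((⟨x, hx⟩ : N) : N ⧸ S)
  obtain ⟨ε⟩ := CommGroup.monoidHom_mulEquiv_of_hasEnoughRootsOfUnity (N ⧸ S) ℤ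
  obtain ⟨y, hy⟩ := (Finite.injective_iff_surjective_of_equiv ε.symm.toEquiv).1 inj
    (χ.comp (QuotientGroup.map S (S ⊔ T.range) (MonoidHom.id N) fun x hx =>
      Subgroup.mem_sup_left hx))
  obtain ⟨g, rfl⟩ := QuotientGroup.mk_surjective y
  have hg : ∀ x : N, e x g = χ x := fun x => DFunLike.congr_fun hy (x : N ⧸ S)
  refine .inr ⟨g, g.2, hnd _ (T g).2 fun y hy => ?_, ?_⟩
  · obtain ⟨h, rfl⟩ := σ.surjective y
    have hh := (hσ h).1 hy
    have h1 := hg (T ⟨h, hh⟩)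
    rw [(QuotientGroup.eq_one_iff _).2 (Subgroup.mem_sup_right (T.mem_range.2 ⟨_, rfl⟩)), map_one,
      hT,
      hmul _ hy _ hh _ g.2] at h1
    rw [hmul _ ((hσ g).2 g.2) _ g.2 _ hy, hinv _ g.2 _ hh, hsym _ g.2 _ hh, hsym _ g.2 _ hy,
      mul_comm, h1]
  · exact (Int.units_eq_one_or _).resolve_left fun e1 => hχ ((hg ⟨d, hd⟩).symm.trans e1)

end Pool.Agent.P.MP_ab3ecb_nt.Inv
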