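import Pool.Agent.P.MP_ab3ecb_nt.Inv.W.Iface
import Pool.Agent.P.MP_ab3ecb_nt.Inv.J.Iface

/-! Step NDG of the twist project. -/

namespace Pool.Agent.P.MP_ab3ecb_nt.Inv

open WithZero Polynomial Module TensorProduct
open Pool.Agent.P.MP_6f117a_ag (Place FF Model Reg)
open scoped IntermediateField Classical

section

variable {k E E' : Type} [Field k] [IsAlgClosed k] [Field E] [Algebra k E] [FF k E] [Field E']
  [Algebra k E'] [FF k E']

omit [FF k E] in
lemma ndg_trans {f : E} (h : ¬ IsSquare f) : Transcendental k f := fun ha => by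
  obtain ⟨c, rfl⟩ := minpoly.mem_range_of_degree_eq_one k f
    (IsAlgClosed.degree_eq_one_of_irreducible k (minpoly.irreducible ha.isIntegral))
  obtain ⟨r, rfl⟩ := IsAlgClosed.exists_eq_mul_self c
  exact h ⟨_, map_mul _ r r⟩

omit [FF k E'] in
/-- The value of a pulled back function on a divisor. -/
lemma ndg_evD (ψ : E →ₐ[k] E') (r : Place k E' → Place k E)
    (hr : ∀ Q w, Q.v (ψ w) = (r Q).v w) (w : E) (B : Dv k E')
    (hB : ∀ Q ∈ B.support, Q.v (ψ w) = 1) : evD (ψ w) B = evD w (B.mapDomain r) := by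
  let u : Place k E → kˣ := fun P => if h : ev P w = 0 then 1 else Units.mk0 _ h
  have hu : ∀ Q ∈ B.support, (u (r Q) : k) = ev (r Q) w := fun Q hQ => by
    simp only [u, dif_neg (ev_ne_zero (hr Q w ▸ hB Q hQ)), Units.val_mk0]
  have h1 := Finsupp.prod_mapDomain_index (f := r) (s := B) (h := fun P n => u P ^ n)
    (fun _ => zpow_zero _) fun _ _ _ => zpow_add _ _ _
  have h2 := congrArg (Units.coeHom k) h1
  rw [map_finsuppProd, map_finsuppProd] at h2
  refine Eq.trans (Finsupp.prod_congr fun Q hQ => ?_)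
    (h2.symm.trans (Finsupp.prod_congr fun P hP => ?_))
  · have h3 : ev Q (ψ w) = ev (r Q) w := ev_eq (by
      rw [← ψ.commutes, ← map_sub, hr]
      exact ev_spec (hr Q w ▸ hB Q hQ).le)
    rw [h3, Units.coeHom_apply, Units.val_zpow_eq_zpow_val, hu Q hQ]
  · obtain ⟨Q, hQ, rfl⟩ := Finset.mem_image.1 (Finsupp.mapDomain_support hP)
    rw [Units.coeHom_apply, Units.val_zpow_eq_zpow_val, hu Q hQ]

omit [IsAlgClosed k] [FF k E] [FF k E'] in
lemma ndg_md (r : Place k E' → Place k E) (i : Place k E' → Place k E') (h1 : ∀ Q, i Q ≠ Q)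
    (h2 : ∀ Q Q', r Q = r Q' ↔ Q' = Q ∨ Q' = i Q) (B : Dv k E') (Q : Place k E') :
    B.mapDomain r (r Q) = B Q + B (i Q) := by
  induction B using Finsupp.induction_linear with
  | zero => simp
  | add A B ihA ihB =>
    simp only [Finsupp.mapDomain_add, Finsupp.add_apply, ihA, ihB]
    ring
  | single Q' n =>
    rw [Finsupp.mapDomain_single]
    simp only [Finsupp.single_apply, eq_comm (a := r Q'), h2]
    have := h1 Q
    by_cases e : Q' = Q
    · simp [e, this.symm]
    · by_cases e' : Q' = i Q <;> simp [e, e', this]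

end

theorem p_NDG (hQUAD : S_QUAD) (hJDIV : S_JDIV) (hWEIL : S_WEIL) (hWA : S_WA) :
    S_NDG := by
  intro k E _ _ _ _ _ _ f hf hsq
  obtain ⟨E', _, _, _, ψ, y, σ, r, hy, h0, hσy, hσσ, hfix, hr, hsur, hne, hfib⟩ := hQUAD k E f hf hsq
  have tf : Transcendental k f := ndg_trans hsq
  have tf' : ∃ t : E', Transcendental k t :=
    ⟨ψ f, fun h => tf ((isAlgebraic_algHom_iff ψ ψ.injective).1 h)⟩
  have hord : ∀ Q w, ord Q (ψ w) = ord (r Q) w := fun Q w => by rw [ord, ord, hr]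
  have y0 : y ≠ 0 := by
    rintro rfl
    exact hf.1 ((map_eq_zero ψ).1 (by rw [← hy, mul_zero]))
  have oy : ∀ Q, ord Q y = hd k f (r Q) := fun Q => by
    have := ord_mul Q y0 y0
    rw [hy, hord] at this
    rw [hd_apply]
    omega
  have hii : ∀ Q, σ.pl (σ.pl Q) = Q := fun Q =>
    σ.pl_eq_iff.2 fun z => by rw [← σ.pl_v Q, hσσ]
  have hri : ∀ Q, r (σ.pl Q) = r Q := fun Q => ((hfib Q _).2 (.inr rfl)).symm
  have hos : ∀ Q z, ord Q (σ.s z) = ord (σ.pl Q) z := fun Q z => by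
    rw [← σ.ord_pl Q, hσσ]
  have := (hWA k E ⟨f, tf⟩).1
  obtain ⟨P, hP⟩ := Infinite.exists_notMem_finset (dv k f).support
  obtain ⟨Q, rfl⟩ := hsur P
  have oQ : ord Q y = 0 := by
    rw [Finsupp.notMem_support_iff, dv_apply] at hP
    rw [oy, hd_apply, hP]
    rfl
  have oQ' : ord (σ.pl Q) y = 0 := by rw [oy, hri, ← oy, oQ]
  obtain ⟨z, z0, hz⟩ := hJDIV k E' tf' {Q, σ.pl Q} (by rw [Finset.card_pair (hne Q).symm]; decide)
  obtain ⟨s, s0, hs⟩ := (hWA k E' tf').2 (dv k y).support fun R => -(ord R z / 2)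
  obtain ⟨w, w0, hw1, hw2⟩ : ∃ w : E', w ≠ 0 ∧ (∀ R, Odd (ord R w) ↔ R = Q ∨ R = σ.pl Q) ∧
      ∀ R : Place k E', ord R y ≠ 0 → ord R w = 0 := by
    have e : ∀ R : Place k E', ord R (z * (s * s)) = ord R z + 2 * ord R s := fun R => by
      rw [ord_mul R z0 (mul_ne_zero s0 s0), ord_mul R s0 s0]
      ring
    refine ⟨z * (s * s), mul_ne_zero z0 (mul_ne_zero s0 s0), fun R => ?_, fun R hR => ?_⟩
    · rw [e, ← Finset.mem_singleton (b := R) (a := σ.pl Q), ← Finset.mem_insert, ← hz,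
        Int.odd_iff, Int.odd_iff]
      omega
    · have h1 : ¬ Odd (ord R z) := fun h => by
        rcases Finset.mem_insert.1 ((hz R).1 h) with h | h
        · exact hR (h ▸ oQ)
        · exact hR (Finset.mem_singleton.1 h ▸ oQ')
      rw [Int.odd_iff] at h1
      rw [e, hs R (by simpa using hR)]
      omega
  obtain ⟨B, hB⟩ : ∃ B : Dv k E', dv k w =
      Finsupp.single Q 1 + -Finsupp.single (σ.pl Q) 1 + 2 • B := by
    refine ⟨(dv k w - Finsupp.single Q 1 + Finsupp.single (σ.pl Q) 1).mapRange (· / 2) (by simp),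
      Finsupp.ext fun R => ?_⟩
    have h1 := hw1 R
    have h2 := hne Q
    rw [Int.odd_iff] at h1
    simp only [Finsupp.add_apply, Finsupp.neg_apply, Finsupp.smul_apply, Finsupp.mapRange_apply,
      Finsupp.sub_apply, dv_apply, Finsupp.single_apply, nsmul_eq_mul, Nat.cast_ofNat]
    by_cases e : Q = R
    · have := h1.2 (.inl e.symm)
      rw [if_pos e, if_neg (e ▸ h2)]
      omega
    · by_cases e' : σ.pl Q = R
      · have := h1.2 (.inr e'.symm)
        rw [if_neg e, if_pos e']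
        omega
      · have : ¬ ord R w % 2 = 1 := fun h => (h1.1 h).elim (fun h => e h.symm) fun h => e' h.symm
        rw [if_neg e, if_neg e']
        omega
  have hB' : ∀ R, ord R w = (if Q = R then 1 else 0) - (if σ.pl Q = R then 1 else 0) + 2 * B R :=
    fun R => by
      rw [← dv_apply, hB]
      simp [Finsupp.single_apply, sub_eq_add_neg]
  have sB : ∀ R ∈ B.support, R.v y = 1 := fun R hR => (eq_one_iff y0).2 (by
    by_contra h
    have h1 := hB' R
    rw [hw2 R h, if_neg fun e : Q = R => h (e ▸ oQ),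
      if_neg fun e : σ.pl Q = R => h (e ▸ oQ')] at h1
    exact Finsupp.mem_support_iff.1 hR (by omega))
  have σw0 : σ.s w ≠ 0 := (map_ne_zero σ.s).2 w0
  obtain ⟨g, hg⟩ := (hfix (w * σ.s w)).1 (by rw [map_mul, hσσ, mul_comm])
  have g0 : g ≠ 0 := by
    rintro rfl
    exact mul_ne_zero w0 σw0 (by rw [← hg, map_zero])
  have og : ∀ R, ord (r R) g = ord R w + ord (σ.pl R) w := fun R => by
    rw [← hord, hg, ord_mul R w0 σw0, hos]
  have og' : ∀ R, ord (r R) g = 2 * (B R + B (σ.pl R)) := fun R => by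
    have e1 : Q = σ.pl R ↔ σ.pl Q = R := ⟨fun e => by rw [e, hii], fun e => by rw [← e, hii]⟩
    rw [og, hB', hB']
    simp only [e1, σ.pl.apply_eq_iff_eq]
    ring
  have hdg : hd k g = B.mapDomain r := Finsupp.ext fun P => by
    obtain ⟨R, rfl⟩ := hsur P
    rw [ndg_md r σ.pl hne hfib, hd_apply, og']
    omega
  choose t ht using hsur
  have hA : ((hd k f).mapDomain t).mapDomain r = hd k f := by
    rw [← Finsupp.mapDomain_comp, show r ∘ t = id from funext ht, Finsupp.mapDomain_id]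
  have sA : ∀ R ∈ ((hd k f).mapDomain t).support, ord R y ≠ 0 := fun R hR => by
    obtain ⟨P, hP, rfl⟩ := Finset.mem_image.1 (Finsupp.mapDomain_support hR)
    rw [oy, ht]
    exact Finsupp.mem_support_iff.1 hP
  generalize (hd k f).mapDomain t = A at hA sA
  have sA1 : ∀ R ∈ A.support, R.v w = 1 := fun R hR => (eq_one_iff w0).2 (hw2 R (sA R hR))
  have sA2 : ∀ R ∈ A.support, R.v (σ.s w) = 1 := fun R hR => (eq_one_iff σw0).2 (by
    rw [hos]
    exact hw2 _ (by rw [oy, hri, ← oy]; exact sA R hR))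
  have hyA : dv k y = A + σ.dm A := Finsupp.ext fun R => by
    rw [dv_apply, oy, ← hA, ndg_md r σ.pl hne hfib, Finsupp.add_apply, ← σ.dm_apply A (σ.pl R), hii]
  have e1 : evD g (hd k f) = evD w (dv k y) := by
    have h1 := σ.evD_dm (σ.s w) A
    rw [hσσ, h0, RingEquiv.refl_apply] at h1
    rw [hyA, evD_add w sA1 fun R hR => ?_, h1,
      ← evD_mul (fun R hR => (sA1 R hR).le) fun R hR => (sA2 R hR).le, ← hg,
      ndg_evD ψ r hr g A fun R hR => by rw [hg, map_mul, sA1 R hR, sA2 R hR, mul_one], hA]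
    rw [σ.support_dm] at hR
    obtain ⟨R', hR', rfl⟩ := Finset.mem_map.1 hR
    rw [← sA2 R' hR', ← σ.pl_v R', hσσ]
    rfl
  have e2 : evD f (hd k g) = evD y B ^ 2 := by
    rw [hdg, ← ndg_evD ψ r hr f B fun R hR => by rw [← hy, map_mul, sB R hR, mul_one], ← hy,
      evD_mul (fun R hR => (sB R hR).le) fun R hR => (sB R hR).le, sq]
  have v1 : Q.v y = 1 := (eq_one_iff y0).2 oQ
  have v2 : (σ.pl Q).v y = 1 := (eq_one_iff y0).2 oQ'
  have e3 : ev (σ.pl Q) y = -ev Q y := by
    have h1 := σ.ev_pl Q (-y)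
    rwa [map_neg, hσy, neg_neg, h0, RingEquiv.refl_apply, ev_neg v1.le] at h1
  have s1 : ∀ R ∈ (Finsupp.single Q 1 : Dv k E').support, R.v y = 1 := fun R hR =>
    Finset.mem_singleton.1 (Finsupp.support_single_subset hR) ▸ v1
  have s2 : ∀ R ∈ (-Finsupp.single (σ.pl Q) 1 : Dv k E').support, R.v y = 1 := fun R hR => by
    rw [Finsupp.support_neg] at hR
    exact Finset.mem_singleton.1 (Finsupp.support_single_subset hR) ▸ v2
  have e4 : evD y (dv k w) = -evD y B ^ 2 := by
    rw [hB, evD_add y (fun R hR => (Finset.mem_union.1 (Finsupp.support_add hR)).elim (s1 R) (s2 R))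
      fun R hR => sB R (Finsupp.support_smul hR), evD_add y s1 s2, evD_neg, evD_single, evD_single,
      evD_nsmul, e3]
    have := ev_ne_zero v1
    field_simp
  refine ⟨g, ⟨g0, fun P => ?_⟩, fun P => ?_, ?_⟩
  · rw [← ht P, og']
    exact even_two_mul _
  · refine or_iff_not_imp_left.2 fun h => ?_
    have h1 : ord (t P) y ≠ 0 := by
      obtain ⟨n, hn⟩ := hf.2 P
      rw [oy, ht, hd_apply]
      omega
    rw [← ht P, og, hw2 _ h1, hw2 _ (by rwa [oy, hri, ← oy]), add_zero]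
  · rw [e1, hWEIL k E' w y w0 y0 fun R => or_iff_not_imp_right.2 (hw2 R), e4, e2, neg_neg]

end Pool.Agent.P.MP_ab3ecb_nt.Inv
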