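import Pool.Agent.P.MP_ab3ecb_nt.Inv.W.Iface
import Pool.Agent.P.MP_ab3ecb_nt.Inv.J.Iface

/-! Step PAIR of the twist project. -/

namespace Pool.Agent.P.MP_ab3ecb_nt.Inv

open WithZero Polynomial Module TensorProduct
open Pool.Agent.P.MP_6f117a_ag (Place FF Model Reg)
open scoped IntermediateField Classical

set_option linter.unusedSectionVars false

section

variable {k E : Type} [Field k] [Field E] [Algebra k E]

variable (k) in
/-- The quotient of the two evaluations. -/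
noncomputable def pair_r (f g : E) : k := evD f (hd k g) / evD g (hd k f)

variable (k) in
/-- The pairing. -/
noncomputable def pair_e (f g : E) : ℤˣ :=
  if ∃ s, s ≠ 0 ∧ Dj k (f * (s * s)) g ∧ pair_r k (f * (s * s)) g = -1 then -1 else 1

variable [IsAlgClosed k] [CharZero k] [FF k E] {f f' g s : E}

lemma pair_dj (h : Dj k f g) : Dj k g f := fun P => (h P).symm

lemma pair_one (hf : f ≠ 0) (h : Dj k f g) : ∀ P ∈ (hd k g).support, P.v f = 1 := fun P hP =>
  (eq_one_iff hf).2 ((h P).resolve_right fun e =>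
    Finsupp.mem_support_iff.1 hP (by rw [hd_apply, e]; rfl))

lemma pair_ne (hf : f ≠ 0) (h : Dj k f g) : evD f (hd k g) ≠ 0 := evD_ne_zero (pair_one hf h)

lemma pair_sq (hW : S_WEIL) (hf : Ev2 k f) (hg : Ev2 k g) (h : Dj k f g) :
    pair_r k f g = 1 ∨ pair_r k f g = -1 := by
  rw [← sq_eq_one_iff, pair_r, div_pow, ← evD_nsmul, ← evD_nsmul, hf.two_hd, hg.two_hd,
    hW k E f g hf.1 hg.1 h, ← hf.two_hd, evD_nsmul]
  exact div_self (pow_ne_zero _ (pair_ne hg.1 (pair_dj h)))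

lemma pair_symm (hW : S_WEIL) (hf : Ev2 k f) (hg : Ev2 k g) (h : Dj k f g) :
    pair_r k f g = pair_r k g f := by
  have : pair_r k g f = (pair_r k f g)⁻¹ := (inv_div _ _).symm
  rcases pair_sq hW hf hg h with e | e <;> simp [this, e]

lemma pair_djm (hf : f ≠ 0) (hf' : f' ≠ 0) (h : Dj k f g) (h' : Dj k f' g) : Dj k (f * f') g :=
  fun P => by
    have := h P
    have := h' P
    rw [ord_mul P hf hf']
    omega

lemma pair_mul (hf : Ev2 k f) (hf' : Ev2 k f') (hg : g ≠ 0) (h : Dj k f g) (h' : Dj k f' g) :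
    pair_r k (f * f') g = pair_r k f g * pair_r k f' g := by
  have e : hd k (f * f') = hd k f + hd k f' := by
    ext P
    obtain ⟨a, ha⟩ := hf.2 P
    obtain ⟨b, hb⟩ := hf'.2 P
    simp only [Finsupp.add_apply, hd_apply, ord_mul P hf.1 hf'.1]
    omega
  rw [pair_r, pair_r, pair_r, e, evD_add _ (pair_one hg (pair_dj h)) (pair_one hg (pair_dj h')),
    evD_mul (fun P hP => (pair_one hf.1 h P hP).le) fun P hP => (pair_one hf'.1 h' P hP).le,
    mul_div_mul_comm]

lemma pair_ind (hW : S_WEIL) (hf : Ev2 k f) (hg : Ev2 k g) (hs : s ≠ 0) (h : Dj k f g)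
    (h' : Dj k (f * (s * s)) g) : pair_r k (f * (s * s)) g = pair_r k f g := by
  have h1 : Dj k s g := fun P => by
    have := h P
    have := h' P
    rw [ord_mul P hf.1 (mul_ne_zero hs hs), ord_mul P hs hs] at this
    omega
  have h2 := pair_djm hs hs h1 h1
  have e : hd k (s * s) = dv k s := by
    ext P
    rw [hd_apply, ord_mul P hs hs, dv_apply]
    omega
  have h3 := pair_ne hg.1 (pair_dj h2)
  rw [pair_mul hf (ev2_sq hs) hg.1 h h2, pair_r.eq_1 k (s * s), eq_comm, eq_comm, mul_right_eq_self₀,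
    div_eq_one_iff_eq h3, evD_mul (fun P hP => (pair_one hs h1 P hP).le)
      fun P hP => (pair_one hs h1 P hP).le, ← pow_two, ← evD_nsmul, hg.two_hd, e]
  exact .inl (hW k E s g hs hg.1 h1)

lemma pair_val (hW : S_WEIL) (hf : Ev2 k f) (hg : Ev2 k g) (hs : s ≠ 0)
    (h : Dj k (f * (s * s)) g) : ((pair_e k f g : ℤ) : k) = pair_r k (f * (s * s)) g := by
  unfold pair_e
  split_ifs with e
  · obtain ⟨t, h0, h1, h2⟩ := e
    have e1 : f * (s * s) = f * (t * t) * (s / t * (s / t)) := by field_simp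
    rw [e1, pair_ind hW (hf.mul (ev2_sq h0)) hg (div_ne_zero hs h0) h1 (e1 ▸ h), h2]
    simp
  · rw [(pair_sq hW (hf.mul (ev2_sq hs)) hg h).resolve_right fun e' => e ⟨s, hs, h, e'⟩]
    simp

lemma pair_val' (hW : S_WEIL) (hf : Ev2 k f) (hg : Ev2 k g) (h : Dj k f g) :
    ((pair_e k f g : ℤ) : k) = pair_r k f g := by
  simpa using pair_val hW hf hg one_ne_zero (by simpa using h)

lemma pair_ex (hA : S_WA) (ht : ∃ t : E, Transcendental k t) (hf : Ev2 k f) (g g' : E) :
    ∃ s, s ≠ 0 ∧ Dj k (f * (s * s)) g ∧ Dj k (f * (s * s)) g' := by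
  obtain ⟨s, h0, h⟩ := (hA k E ht).2 ((dv k g).support ∪ (dv k g').support) fun P => -(ord P f / 2)
  have key : ∀ P, ord P g ≠ 0 ∨ ord P g' ≠ 0 → ord P (f * (s * s)) = 0 := fun P hP => by
    obtain ⟨a, ha⟩ := hf.2 P
    rw [ord_mul P hf.1 (mul_ne_zero h0 h0), ord_mul P h0 h0, h P (by simpa using hP)]
    omega
  exact ⟨s, h0, fun P => or_iff_not_imp_right.2 fun e => key P (.inl e),
    fun P => or_iff_not_imp_right.2 fun e => key P (.inr e)⟩

lemma pair_inj {a b : ℤˣ} (h : ((a : ℤ) : k) = (b : ℤ)) : a = b :=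
  Units.ext (Int.cast_injective h)

end

theorem p_PAIR (hWEIL : S_WEIL) (hWA : S_WA) (hNDG : S_NDG) :
    S_PAIR := by
  intro k E _ _ _ _ _ _ ht
  refine ⟨pair_e k, fun f g hf hg h => ?_, fun f f' g hf hf' hg => ?_, fun f g hf hg => ?_,
    fun f g hf hg => ?_, fun σ f g hf hg => ?_, fun f hf h => by_contra fun h1 => ?_⟩
  · rw [pair_val' hWEIL hf hg h, pair_r, div_mul_cancel₀ _ (pair_ne hg.1 (pair_dj h))]
  · obtain ⟨s, h0, h1, -⟩ := pair_ex hWA ht hf g g
    obtain ⟨t, h2, h3, -⟩ := pair_ex hWA ht hf' g g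
    have e : f * f' * (s * t * (s * t)) = f * (s * s) * (f' * (t * t)) := by ring
    have a := hf.mul (ev2_sq h0)
    have b := hf'.mul (ev2_sq h2)
    apply pair_inj (k := k)
    rw [Units.val_mul, Int.cast_mul, pair_val hWEIL hf hg h0 h1, pair_val hWEIL hf' hg h2 h3,
      pair_val hWEIL (hf.mul hf') hg (mul_ne_zero h0 h2) (e ▸ pair_djm a.1 b.1 h1 h3), e,
      pair_mul a b hg.1 h1 h3]
  · obtain ⟨t, h2, h3, -⟩ := pair_ex hWA ht hg f f
    obtain ⟨s, h0, h1, h4⟩ := pair_ex hWA ht hf g (g * (t * t))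
    have a := hf.mul (ev2_sq h0)
    have b := hg.mul (ev2_sq h2)
    apply pair_inj (k := k)
    rw [pair_val hWEIL hf hg h0 h1, pair_val hWEIL hg hf h2 h3, pair_symm hWEIL a hg h1,
      ← pair_ind hWEIL hg a h2 (pair_dj h1) (pair_dj h4), ← pair_symm hWEIL a b h4,
      pair_ind hWEIL hf b h0 (pair_dj h3) h4, pair_symm hWEIL b hf h3]
  · have e : f * f * (f⁻¹ * f⁻¹) = 1 := by field_simp
    have e1 : hd k (1 : E) = 0 := by
      ext P
      simp [hd_apply]
    apply pair_inj (k := k)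
    rw [pair_val hWEIL (ev2_sq hf) hg (inv_ne_zero hf) (e ▸ fun P => .inl (ord_one P)), e, pair_r,
      e1]
    simp [evD]
  · obtain ⟨s, h0, h1, -⟩ := pair_ex hWA ht hf g g
    have e : σ.s f * (σ.s s * σ.s s) = σ.s (f * (s * s)) := by simp
    apply pair_inj (k := k)
    rw [pair_val hWEIL (hf.s σ) (hg.s σ) ((map_ne_zero σ.s).2 h0)
      (e ▸ σ.pl.surjective.forall.2 fun P => by simpa only [σ.ord_pl] using h1 P), e, pair_r,
      σ.hd_s, σ.hd_s, σ.evD_dm, σ.evD_dm, ← map_div₀, ← pair_r, ← pair_val hWEIL hf hg h0 h1,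
      map_intCast]
  · obtain ⟨g, hg, h2, h3⟩ := hNDG k E f hf h1
    have := pair_val' hWEIL hf hg h2
    rw [h g hg, pair_r, h3, neg_div, div_self (pair_ne hg.1 (pair_dj h2))] at this
    norm_num at this

end Pool.Agent.P.MP_ab3ecb_nt.Inv
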