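import Pool.Agent.P.MP_ab3ecb_nt.Inv.W.Iface

/-! Step QUAD of the twist project. -/

namespace Pool.Agent.P.MP_ab3ecb_nt.Inv

open WithZero Polynomial Module TensorProduct
open Pool.Agent.P.MP_6f117a_ag (Place FF Model Reg)
open scoped IntermediateField Classical

section

variable {k E M : Type} [Field k] [IsAlgClosed k] [CharZero k] [Field E] [Algebra k E] [FF k E]
  [Field M] [Algebra k M] [FF k M] {ψ : E →ₐ[k] M} {f : E} {y : M}

lemma quad_unit (hf : Ev2 k f) (ht : Transcendental k f) (hy : y * y = ψ f) (Q : Place k M) :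
    ∃ w : E, Q.v (ψ w * y) = 1 := by
  obtain ⟨P, hP⟩ := PL.exists_restrict ψ ht Q
  have he : (Q.v.comap (ψ : E →+* M)).IsEquiv P.v :=
    Valuation.isEquiv_iff_val_lt_one.2 fun {x} => hP x
  obtain ⟨m, hm⟩ := hf.2 P
  have h0 := zpow_ne_zero (-m) P.π_ne
  have h1 : P.v (P.π ^ (-m) * P.π ^ (-m) * f) = 1 := by
    rw [eq_one_iff (mul_ne_zero (mul_ne_zero h0 h0) hf.1), ord_mul P (mul_ne_zero h0 h0) hf.1,
      ord_mul P h0 h0, ord_zpow, ord_π, hm]
    ring
  have h2 : Q.v (ψ (P.π ^ (-m) * P.π ^ (-m) * f)) = 1 := he.eq_one_iff_eq_one.2 h1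
  refine ⟨P.π ^ (-m), (pow_eq_one_iff_of_nonneg zero_le two_ne_zero).1 ?_⟩
  rw [← map_pow, ← h2, map_mul ψ, map_mul ψ, ← hy]
  congr 1
  ring

omit [IsAlgClosed k] [FF k M] in
lemma quad_two (Q : Place k M) : Q.v 2 = 1 := by
  rw [← map_ofNat (algebraMap k M) 2]
  exact Q.v_const two_ne_zero

omit [IsAlgClosed k] [FF k M] in
lemma quad_max (Q : Place k M) (a b : M) :
    max (Q.v (a + b)) (Q.v (a - b)) = max (Q.v a) (Q.v b) := by
  refine le_antisymm (max_le (Q.v.map_add a b) (Q.v.map_sub a b)) (max_le ?_ ?_)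
  · have := Q.v.map_add (a + b) (a - b)
    rwa [show a + b + (a - b) = 2 * a by ring, map_mul, quad_two, one_mul] at this
  · have := Q.v.map_sub (a + b) (a - b)
    rwa [show a + b - (a - b) = 2 * b by ring, map_mul, quad_two, one_mul] at this

lemma quad_val (hf : Ev2 k f) (ht : Transcendental k f) (hy : y * y = ψ f)
    (hz : ∀ z, ∃ a b, z = ψ a + ψ b * y) (hn : ∀ a b, ψ a - ψ b * y = 0 → ψ a + ψ b * y = 0)
    (Q : Place k M) (z : M) : ∃ w, Q.v (ψ w) = Q.v z := by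
  obtain ⟨u, hu⟩ := quad_unit hf ht hy Q
  have u0 : u ≠ 0 := by
    rintro rfl
    simp at hu
  obtain ⟨a, b, rfl⟩ := hz z
  have h1 : Q.v (ψ b * y) = Q.v (ψ (b / u)) := by
    rw [← mul_one (Q.v (ψ (b / u))), ← hu, ← map_mul, ← mul_assoc, ← map_mul, div_mul_cancel₀ _ u0]
  obtain ⟨c, hc⟩ : ∃ c, Q.v (ψ c) = max (Q.v (ψ a + ψ b * y)) (Q.v (ψ a - ψ b * y)) := by
    rw [quad_max, h1]
    rcases max_choice (Q.v (ψ a)) (Q.v (ψ (b / u))) with e | e <;> exact ⟨_, e.symm⟩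
  rcases max_choice (Q.v (ψ a + ψ b * y)) (Q.v (ψ a - ψ b * y)) with e | e
  · exact ⟨c, hc.trans e⟩
  by_cases h0 : ψ a - ψ b * y = 0
  · exact ⟨0, by rw [hn a b h0, map_zero]⟩
  refine ⟨(a * a - b * b * f) / c, ?_⟩
  rw [map_div₀, map_div₀, hc, e, div_eq_iff (v_ne Q h0), ← map_mul]
  congr 1
  simp only [map_sub, map_mul, ← hy]
  ring

lemma quad_ne (hf : Ev2 k f) (ht : Transcendental k f) (hy : y * y = ψ f) (σ : SA k M)
    (h0 : σ.s0 = RingEquiv.refl k) (h1 : σ.s y = -y) (h2 : ∀ w, σ.s (ψ w) = ψ w)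
    (Q : Place k M) : σ.pl Q ≠ Q := fun e => by
  obtain ⟨u, hu⟩ := quad_unit hf ht hy Q
  have h3 := σ.ev_pl Q (ψ u * y)
  rw [e, map_mul, h1, h2, mul_neg, ev_neg hu.le, h0, RingEquiv.refl_apply] at h3
  exact ev_ne_zero hu (CharZero.neg_eq_self_iff.1 h3)

end

theorem p_QUAD :
    S_QUAD := by
  intro k E _ _ _ _ _ _ f hf hs
  have ht : Transcendental k f := (MP_6f117a_ag.const_or_trans f).resolve_left fun ⟨c, hc⟩ => by
    obtain ⟨r, rfl⟩ := IsAlgClosed.exists_eq_mul_self c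
    exact hs ⟨_, hc.symm.trans (map_mul _ r r)⟩
  have : CharZero E := charZero_of_injective_algebraMap (algebraMap k E).injective
  have : Fact (∀ r : E, r ^ 2 ≠ f + 0 * r) := ⟨fun r e => hs ⟨r, by rw [← sq, e]; ring⟩⟩
  let M := QuadraticAlgebra E f 0
  have := FF.fin f ht
  have : FF k M := (PL.ff_of_finite k E M f).2
  have : Algebra.IsQuadraticExtension E M := ⟨QuadraticAlgebra.finrank_eq_two f 0⟩
  let ψ : E →ₐ[k] M := IsScalarTower.toAlgHom k E M
  let y : M := QuadraticAlgebra.omega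
  have e1 : ∀ w, (ψ w).re = w := fun _ => rfl
  have e2 : ∀ w, (ψ w).im = 0 := fun _ => rfl
  have e3 : y.re = 0 := rfl
  have e4 : y.im = 1 := rfl
  have hy : y * y = ψ f := by ext <;> simp [M, e1, e2, e3, e4]
  have hz : ∀ z : M, z = ψ z.re + ψ z.im * y := fun z => by ext <;> simp [M, e1, e2, e3, e4]
  have s1 : ∀ w, star (ψ w) = ψ w := fun w => by ext <;> simp [M, e1, e2]
  have s2 : star y = -y := by ext <;> simp [M, e3, e4]
  let σ : SA k M := ⟨starRingAut, .refl k, fun c => by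
    rw [← ψ.commutes]; exact s1 _⟩
  have hv := quad_val hf ht hy (fun z => ⟨_, _, hz z⟩) fun a b h => by
    have := congrArg σ.s h
    rwa [map_zero, map_sub, map_mul, show σ.s y = -y from s2, show σ.s (ψ a) = _ from s1 a,
      show σ.s (ψ b) = _ from s1 b, mul_neg, sub_neg_eq_add] at this
  let r : Place k M → Place k E := fun Q => ⟨Q.v.comap (ψ : E →+* M), fun n => by
    obtain ⟨z, rfl⟩ := Q.surj n
    exact hv Q z, fun c => by simpa using Q.triv c⟩
  have hσ : ∀ (Q : Place k M) z, (σ.pl Q).v z = Q.v (σ.s z) := fun Q z => by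
    rw [← σ.pl_v Q, show σ.s (σ.s z) = z from star_star z]
  refine ⟨M, inferInstance, inferInstance, inferInstance, ψ, y, σ, r, hy, rfl, s2, star_star,
    fun z => ⟨fun h => ⟨z.re, ?_⟩, ?_⟩, fun _ _ => rfl, fun P => ?_,
    quad_ne hf ht hy σ rfl s2 s1, fun Q Q' => ⟨fun h => ?_, ?_⟩⟩
  · have h1 : (star z).im = z.im := congrArg QuadraticAlgebra.im h
    rw [QuadraticAlgebra.im_star, CharZero.neg_eq_self_iff] at h1
    ext <;> simp [e1, e2, h1]
  · rintro ⟨w, rfl⟩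
    exact s1 w
  · obtain ⟨Q, hQ⟩ := PL.exists_extend ψ ht P
    exact ⟨Q, PL.uniq _ _ hQ⟩
  · obtain ⟨g, hg⟩ := PL.exists_conj (L := E) ht Q Q' fun u => by
      change (r Q).v u < 1 ↔ (r Q').v u < 1
      rw [h]
    have h1 : ∀ w, g (ψ w) = ψ w := g.commutes
    have h2 : g y * g y = y * y := by rw [← map_mul, hy, h1]
    refine (mul_self_eq_mul_self_iff.1 h2).imp (fun e => ?_) fun e => ?_ <;>
      refine MP_6f117a_ag.Place.ext' (Valuation.ext fun z => ?_)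
    · rw [hg, hz z, map_add, map_mul, h1, h1, e]
    · rw [hg, hσ, hz z, map_add, map_mul, h1, h1, e, map_add σ.s, map_mul σ.s,
        show σ.s y = -y from s2, show σ.s (ψ _) = _ from s1 _, show σ.s (ψ _) = _ from s1 _]
  · rintro (rfl | rfl)
    · rfl
    · refine MP_6f117a_ag.Place.ext' (Valuation.ext fun w => ?_)
      change Q.v (ψ w) = (σ.pl Q).v (ψ w)
      rw [hσ, show σ.s (ψ w) = _ from s1 w]

end Pool.Agent.P.MP_ab3ecb_nt.Inv
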