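import Pool.Agent.P.MP_ab3ecb_nt.Inv.W.Iface
import Pool.Agent.P.MP_ab3ecb_nt.Inv.J.Iface

/-! Step KEY of the twist project. -/

namespace Pool.Agent.P.MP_ab3ecb_nt.Inv

open WithZero Polynomial Module TensorProduct
open Pool.Agent.P.MP_6f117a_ag (Place FF Model Reg)
open scoped IntermediateField Classical

section

variable {k E : Type} [Field k] [IsAlgClosed k] [Field E] [Algebra k E] [FF k E] {σ : SA k E}
  {a b : Place k E} {γ g : E}

lemma key_dv (hab : a ≠ b) (h : OddAt k γ {a, b}) :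
    dv k γ = Finsupp.single a 1 + Finsupp.single b 1 + 2 • hd k γ := by
  ext P
  have h1 := h.2 P
  simp only [Finsupp.add_apply, Finsupp.smul_apply, hd_apply, dv_apply, nsmul_eq_mul,
    Finsupp.single_apply, Nat.cast_ofNat]
  rw [Int.odd_iff, Finset.mem_insert, Finset.mem_singleton] at h1
  split_ifs with h2 h3 h3
  · exact absurd (h2.trans h3.symm) hab
  · have := h1.2 (.inl h2.symm); omega
  · have := h1.2 (.inr h3.symm); omega
  · have := mt h1.1 fun e => e.elim (fun e => h2 e.symm) fun e => h3 e.symm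
    omega

lemma key_ev (hab : a ≠ b) (ha : σ.pl a = a) (hb : σ.pl b = b) (h : OddAt k γ {a, b}) :
    Ev2 k (σ.s γ * γ) ∧ hd k (σ.s γ * γ) =
      Finsupp.single a 1 + Finsupp.single b 1 + hd k γ + σ.dm (hd k γ) := by
  have h0 : σ.s γ ≠ 0 := (map_ne_zero σ.s).2 h.1
  have h1 : dv k (σ.s γ * γ) =
      2 • (Finsupp.single a 1 + Finsupp.single b 1 + hd k γ + σ.dm (hd k γ)) := by
    rw [dv_mul h0 h.1, σ.dv_s, key_dv hab h, map_add, map_add, σ.dm_single, σ.dm_single, ha, hb,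
      map_nsmul]
    abel
  refine ⟨⟨mul_ne_zero h0 h.1, fun P => ⟨_, by rw [← dv_apply, h1, two_nsmul]; rfl⟩⟩, ?_⟩
  ext P
  rw [hd_apply, ← dv_apply, h1, Finsupp.smul_apply, nsmul_eq_mul, Nat.cast_ofNat]
  omega

omit [IsAlgClosed k] [FF k E] in
lemma key_add {D D' : Dv k E} (h : ∀ P ∈ D.support, P.v g = 1) (h' : ∀ P ∈ D'.support, P.v g = 1) :
    ∀ P ∈ (D + D').support, P.v g = 1 :=
  fun P hP => (Finset.mem_union.1 (Finsupp.support_add hP)).elim (h P) (h' P)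

lemma key_hd (h0 : g ≠ 0) (h : Dj k γ g) : ∀ P ∈ (hd k γ).support, P.v g = 1 := fun P hP =>
  (eq_one_iff h0).2 ((h P).resolve_left fun e =>
    Finsupp.mem_support_iff.1 hP (by rw [hd_apply, e]; rfl))

end

theorem p_KEY (hWEIL : S_WEIL) (hWA : S_WA) :
    S_KEY := by
  intro k E _ _ _ _ _ _ e he σ a b γ g r hab ha hb hγ hg hs a1 b1 hr
  suffices H : ∀ γ, OddAt k γ {a, b} → Dj k γ g → σ.s0 r = ((e (σ.s γ * γ) g : ℤ) : k) * r by
    obtain ⟨s, s0, h1⟩ := (hWA k E ⟨_, a.π_trans⟩).2 (dv k g).support fun P => -(ord P γ / 2)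
    have h2 : ∀ P : Place k E, ord P (γ * (s * s)) = ord P γ + 2 * ord P s := fun P => by
      rw [ord_mul P hγ.1 (mul_ne_zero s0 s0), ord_mul P s0 s0, two_mul]
    have h3 := mul_ne_zero ((map_ne_zero σ.s).2 s0) s0
    have := H (γ * (s * s)) ⟨mul_ne_zero hγ.1 (mul_ne_zero s0 s0), fun P => by
      rw [← hγ.2, h2, Int.odd_iff, Int.odd_iff]; omega⟩ fun P => or_iff_not_imp_right.2 fun hP => by
      have h4 : ¬ Odd (ord P γ) := fun o => by
        rcases Finset.mem_insert.1 ((hγ.2 P).1 o) with rfl | o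
        · exact hP ((eq_one_iff hg.1).1 a1)
        · exact hP (Finset.mem_singleton.1 o ▸ (eq_one_iff hg.1).1 b1)
      rw [h2, h1 P (by simpa using hP)]
      rw [Int.odd_iff] at h4
      omega
    rwa [show σ.s (γ * (s * s)) * (γ * (s * s)) = σ.s γ * γ * (σ.s s * s * (σ.s s * s)) by
      rw [map_mul, map_mul]; ring, he.mul _ _ _ (key_ev hab ha hb hγ).1 (ev2_sq h3) hg,
      he.sq _ _ h3 hg, mul_one] at this
  intro γ hγ hj
  have h0 : σ.s γ ≠ 0 := (map_ne_zero σ.s).2 hγ.1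
  have hj' : Dj k (σ.s γ) g := σ.pl.surjective.forall.2 fun P => by
    rw [← hs, σ.ord_pl, σ.ord_pl]; exact hj P
  obtain ⟨h1, h2⟩ := key_ev hab ha hb hγ
  have sa : ∀ {a : Place k E}, a.v g = 1 → ∀ P ∈ (Finsupp.single a (1 : ℤ)).support, P.v g = 1 :=
    fun h P hP => Finset.mem_singleton.1 (Finsupp.support_single_subset hP) ▸ h
  have u1 := key_add (sa a1) (sa b1)
  have u2 := key_hd hg.1 hj
  have u3 := key_hd hg.1 hj'
  have e1 := he.eq _ g h1 hg fun P => or_iff_not_imp_right.2 fun hP => by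
    rw [ord_mul P h0 hγ.1, (hj P).resolve_right hP, (hj' P).resolve_right hP, add_zero]
  have e2 := hWEIL k E γ g hγ.1 hg.1 hj
  have e3 : evD (σ.s γ) (hd k g) = σ.s0 (evD γ (hd k g)) := by rw [← σ.evD_dm, ← σ.hd_s, hs]
  have e4 : evD g (σ.dm (hd k γ)) = σ.s0 (evD g (hd k γ)) := by rw [← σ.evD_dm, hs]
  rw [σ.hd_s] at u3
  rw [h2, evD_add _ (key_add u1 u2) u3, evD_add _ u1 u2, evD_add _ (sa a1) (sa b1), evD_single,
    evD_single, zpow_one, zpow_one, ← hr, e4,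
    evD_mul (fun P hP => (key_hd h0 (fun P => (hj' P).symm) P hP).le)
      (fun P hP => (key_hd hγ.1 (fun P => (hj P).symm) P hP).le), e3] at e1
  rw [← hg.two_hd, evD_nsmul, key_dv hab hγ, evD_add _ u1 (fun P hP => u2 P
    (Finsupp.support_smul hP)), evD_add _ (sa a1) (sa b1), evD_single, evD_single, zpow_one,
    zpow_one, ← hr, evD_nsmul, ← pow_two, ← mul_pow, sq_eq_sq_iff_eq_or_eq_neg] at e2
  have y0 := evD_ne_zero u2
  have r0 : r ≠ 0 := fun e => mul_ne_zero (ev_ne_zero a1) (ev_ne_zero b1) (by rw [← hr, e, zero_mul])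
  refine mul_right_cancel₀ (mul_ne_zero (mul_ne_zero r0 y0) ((map_ne_zero σ.s0).2 y0)) ?_
  rcases e2 with e2 | e2 <;> simp only [e2, map_mul, map_neg] at e1 <;> linear_combination -e1

end Pool.Agent.P.MP_ab3ecb_nt.Inv
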